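import Pool.Agent.Helper42.SLC.Goals
import Pool.Agent.Helper8.SL.GA2

/-!
# Project SL (MP_fc6b1e_nt), packet SLC NV: archimedean non vanishing
-/

namespace Pool.Agent.Helper94.SLC

open Pool.Agent.Helper42.SLC Pool.Agent.Helper17.SL
open Pool.Agent.Helper51.SigLeo Pool.Agent.Helper51.SixExp NumberField Module

set_option linter.unusedSectionVars false

universe u v

section

variable {M : Type u} [Field M] {N : Type v} [Field N] [NumberField N] [Algebra M N]

theorem comp_comp (ρ : N →+* ℂ) (g h : N ≃ₐ[M] N) :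
    (ρ.comp (g : N →+* N)).comp (h : N →+* N) = ρ.comp ((g * h : N ≃ₐ[M] N) : N →+* N) := rfl

theorem mk_comp_eq (φ ψ : N →+* ℂ) (h : N ≃ₐ[M] N) (e : InfinitePlace.mk φ = InfinitePlace.mk ψ) :
    InfinitePlace.mk (φ.comp (h : N →+* N)) = InfinitePlace.mk (ψ.comp (h : N →+* N)) := by
  rw [InfinitePlace.mk_eq_iff] at e ⊢
  rcases e with e | e
  · left; rw [e]
  · right; rw [← e, ComplexEmbedding.conjugate_comp]

theorem mult_comp (φ : N →+* ℂ) (h : N ≃ₐ[M] N) :
    (InfinitePlace.mk (φ.comp (h : N →+* N))).mult = (InfinitePlace.mk φ).mult := by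
  have h1 : (InfinitePlace.mk (φ.comp (h : N →+* N))).IsReal ↔ (InfinitePlace.mk φ).IsReal := by
    rw [InfinitePlace.isReal_mk_iff, InfinitePlace.isReal_mk_iff]
    constructor
    · intro h2
      have h3 : ComplexEmbedding.IsReal ((φ.comp (h : N →+* N)).comp ((h⁻¹ : N ≃ₐ[M] N) : N →+* N)) := by
        rw [ComplexEmbedding.isReal_iff] at h2 ⊢
        rw [← ComplexEmbedding.conjugate_comp, h2]
      rw [comp_comp, mul_inv_cancel] at h3
      exact h3
    · intro h2
      rw [ComplexEmbedding.isReal_iff] at h2 ⊢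
      rw [← ComplexEmbedding.conjugate_comp, h2]
  unfold InfinitePlace.mult
  by_cases h2 : (InfinitePlace.mk φ).IsReal
  · rw [if_pos h2, if_pos (h1.mpr h2)]
  · rw [if_neg h2, if_neg (fun h3 ↦ h2 (h1.mp h3))]

end

theorem nv : S_NV.{u, v} := by
  classical
  intro M _ N _ _ _ _ θ ρ hθ hc
  by_contra hcon
  push Not at hcon
  let pl : (N ≃ₐ[M] N) → InfinitePlace N := fun g ↦ InfinitePlace.mk (ρ.comp (g : N →+* N))
  let c : InfinitePlace N → ℂ := fun w ↦ ((w.mult : ℂ))⁻¹ *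
    ∑ g : N ≃ₐ[M] N, if pl g = w then ((θ g⁻¹ : ℂˣ) : ℂ) else 0
  have hm0 : ∀ w : InfinitePlace N, (w.mult : ℂ) ≠ 0 := fun w ↦ by
    exact_mod_cast (InfinitePlace.mult_pos (w := w)).ne'
  have hrel : ∀ u : (𝓞 N)ˣ, ∑ w, c w * ((w.mult * Real.log (w (u : N)) : ℝ) : ℂ) = 0 := by
    intro u
    rw [← hcon (Additive.ofMul u)]
    have e1 : ∀ w : InfinitePlace N, c w * ((w.mult * Real.log (w (u : N)) : ℝ) : ℂ) =
        ∑ g : N ≃ₐ[M] N, if pl g = w then
          ((θ g⁻¹ : ℂˣ) : ℂ) * ((Real.log (w (u : N)) : ℝ) : ℂ) else 0 := by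
      intro w
      simp only [c]
      rw [Complex.ofReal_mul, Complex.ofReal_natCast]
      have : ((w.mult : ℂ))⁻¹ * (∑ g : N ≃ₐ[M] N, if pl g = w then ((θ g⁻¹ : ℂˣ) : ℂ) else 0) *
          ((w.mult : ℂ) * ((Real.log (w (u : N)) : ℝ) : ℂ)) =
          (∑ g : N ≃ₐ[M] N, if pl g = w then ((θ g⁻¹ : ℂˣ) : ℂ) else 0) *
            ((Real.log (w (u : N)) : ℝ) : ℂ) := by
        have := hm0 w
        field_simp
      rw [this, Finset.sum_mul]
      refine Finset.sum_congr rfl fun g _ ↦ ?_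
      rw [ite_mul, zero_mul]
    rw [Finset.sum_congr rfl fun w _ ↦ e1 w, Finset.sum_comm]
    unfold tw
    refine Finset.sum_congr rfl fun g _ ↦ ?_
    rw [Finset.sum_ite_eq Finset.univ (pl g), if_pos (Finset.mem_univ _)]
    rfl
  have hconst := fun w w' ↦ PkGA2.cplx_rel c hrel w w'
  -- the value of `θ` on a fibre
  have hfib : ∀ g g₀, pl g = pl g₀ → θ g⁻¹ = θ g₀⁻¹ := by
    intro g g₀ h
    rcases InfinitePlace.mk_eq_iff.mp h with h1 | h1
    · have : g = g₀ := by
        ext y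
        apply ρ.injective
        exact RingHom.congr_fun h1 y
      rw [this]
    · have h2 : ComplexEmbedding.conjugate ρ = ρ.comp ((g₀ * g⁻¹ : N ≃ₐ[M] N) : N →+* N) := by
        have h3 := congrArg (fun φ : N →+* ℂ ↦ φ.comp ((g⁻¹ : N ≃ₐ[M] N) : N →+* N)) h1

        rw [ComplexEmbedding.conjugate_comp, comp_comp] at h3
        have h4 : ((ComplexEmbedding.conjugate ρ).comp (g : N →+* N)).comp
            ((g⁻¹ : N ≃ₐ[M] N) : N →+* N) = ComplexEmbedding.conjugate ρ := by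
          rw [comp_comp, mul_inv_cancel]
          rfl
        rw [← h4]
        exact h3
      have h3 := hc _ h2
      rw [map_mul] at h3
      rw [map_inv, map_inv]
      rw [map_inv] at h3
      rw [mul_inv_eq_one.mp h3]
  let n : ℕ := (Finset.univ.filter fun g : N ≃ₐ[M] N ↦ pl g = pl 1).card
  have hn : n ≠ 0 := by
    apply (Finset.card_pos.mpr ⟨1, ?_⟩).ne'
    simp
  have hcard : ∀ g₀, (Finset.univ.filter fun g : N ≃ₐ[M] N ↦ pl g = pl g₀).card = n := by
    intro g₀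
    symm
    apply Finset.card_bij (fun g _ ↦ g * g₀)
    · intro g hg
      rw [Finset.mem_filter] at hg ⊢
      refine ⟨Finset.mem_univ _, ?_⟩
      exact mk_comp_eq _ _ g₀ hg.2
    · intro g _ g' _ h
      exact mul_right_cancel h
    · intro g hg
      rw [Finset.mem_filter] at hg
      refine ⟨g * g₀⁻¹, ?_, by rw [inv_mul_cancel_right]⟩
      rw [Finset.mem_filter]
      refine ⟨Finset.mem_univ _, ?_⟩
      have h1 := mk_comp_eq _ _ g₀⁻¹ hg.2
      rw [comp_comp, comp_comp, mul_inv_cancel] at h1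
      exact h1
  have hval : ∀ g₀, c (pl g₀) = (((pl 1).mult : ℂ))⁻¹ * (n * ((θ g₀⁻¹ : ℂˣ) : ℂ)) := by
    intro g₀
    simp only [c]
    have h1 : (pl g₀).mult = (pl 1).mult := by
      have h2 := mult_comp ρ g₀
      have h3 := mult_comp ρ (1 : N ≃ₐ[M] N)
      exact h2.trans h3.symm
    rw [h1]
    congr 1
    rw [← Finset.sum_filter, Finset.sum_congr rfl (g := fun _ ↦ ((θ g₀⁻¹ : ℂˣ) : ℂ)),
      Finset.sum_const, hcard, nsmul_eq_mul]
    intro g hg
    rw [Finset.mem_filter] at hg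
    rw [hfib g g₀ hg.2]
  apply hθ
  ext g
  have h1 := hconst (pl g⁻¹) (pl 1)
  rw [hval, hval, inv_inv, inv_one, map_one] at h1
  have h2 := mul_left_cancel₀ (inv_ne_zero (hm0 (pl 1))) h1
  have h3 := mul_left_cancel₀ (Nat.cast_ne_zero.mpr hn) h2
  rw [h3, MonoidHom.one_apply]

end Pool.Agent.Helper94.SLC
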